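import Pool.Agent.TH826.UM.Scale
set_option autoImplicit false

/-!
Beilinson's conjecture on regulators in weight `d = dim X + 1`, for `i = dim X`: on the
hypersurfaces `λ ∏_k ∏_{i ≤ r_k} (x_k - a_{k,i}) = 1` of multidegree `(r_0 + 1, ..., r_n + 1)` in
products of `n + 1` projective lines, `p_g = ∏_k r_k` unramified classes in Milnor K-theory with
linearly independent regulators, with explicit hypotheses and without exceptions: for rational
integers `a_{k,i}` with mutual distances at least `4`, for all nonzero integers `λ`.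
-/

namespace Pool.Agent.Results.MP_a09a03_nt.MultidegreeHypersurfaces

open Pool.Agent.TH826.MK (KQ symb Unramified Torus)

open Pool.Agent.TH826.MH

/-- Let `n ≥ 1` and `r_0, ..., r_n`, let `σ` be a complex embedding of the number field `K`, let
`λ` and `a_{k,i}` (`k ≤ n`, `0 ≤ i ≤ r_k`) be algebraic integers of `K`, and let `δ_k > 0` be such
that `|σ a_{k,i} - σ a_{k,j}| ≥ 3 δ_k` for `i ≠ j` and `|σ λ| ∏_k δ_k^(r_k + 1) ≥ 2`. Then the
coordinate ring of the `n`-dimensional hypersurface `λ ∏_k ∏_i (x_k - a_{k,i}) = 1` is a domain; the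
hypersurface is smooth (the gradient does not vanish at the complex points over `σ`); the `∏_k r_k`
symbols `{u_{0,i_0}, ..., u_{n,i_n}}`, `u_{k,i} = (x_k - a_{k,i}) / (x_k - a_{k,i+1})`, are
unramified at all discrete valuations of the function field; and there are `∏_k r_k` tori of
dimension `n` in the complex points (over `σ`) of the hypersurface, such that the determinant of the
regulators of the symbols on the tori does not vanish. -/
theorem result (n : ℕ) (hn : 1 ≤ n) (r : Fin (n + 1) → ℕ) (K : Type*) [Field K] [NumberField K]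
    (σ : K →+* ℂ) (lam : K) (a : ∀ k, Fin (r k + 1) → K) (hlam : IsIntegral ℤ lam)
    (ha : ∀ k i, IsIntegral ℤ (a k i)) (δ : Fin (n + 1) → ℝ) (hδ : ∀ k, 0 < δ k)
    (hsep : ∀ k i j, i ≠ j → 3 * δ k ≤ ‖σ (a k i) - σ (a k j)‖)
    (hl : 2 ≤ ‖σ lam‖ * ∏ k, δ k ^ (r k + 1)) :
    IsDomain (CRing lam a) ∧
    (∀ x : Fin (n + 1) → ℂ, MvPolynomial.eval₂ σ x (eqn lam a) = 0 →
      ∃ k, MvPolynomial.eval₂ σ x (MvPolynomial.pderiv k (eqn lam a)) ≠ 0) ∧
    (∀ (L : Type*) [Field L] [Algebra (CRing lam a) L] [IsFractionRing (CRing lam a) L],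
      ∀ i : (∀ k, Fin (r k)),
        KQ.map (n + 1) (algebraMap (CRing lam a) L) (symb (ent lam a i)) ∈
          Unramified L (n + 1)) ∧
    ∃ Γ : (∀ k, Fin (r k)) → Torus (CRing lam a) n,
      (∀ t θ (x : K), (Γ t).e θ (fpol lam a (MvPolynomial.C x)) = σ x) ∧
      (Matrix.of fun t i : (∀ k, Fin (r k)) => (Γ t).reg (symb (ent lam a i))).det ≠ 0 := by
  obtain ⟨m, rfl⟩ : ∃ m, n = m + 1 := ⟨n - 1, by omega⟩
  have hl0 : lam ≠ 0 := by
    intro h0
    rw [h0, map_zero, norm_zero, zero_mul] at hl
    linarith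
  have hinj : ∀ k, Function.Injective (a k) := by
    intro k i j hij
    by_contra hne
    have h := hsep k i j hne
    rw [hij, sub_self, norm_zero] at h
    linarith [hδ k]
  exact ⟨isDomain_CRing lam a hl0 hinj,
    fun x hx => Pool.Agent.TH826.UM.smooth (by omega) σ a hδ
      (fun k i j hij => by linarith [hsep k i j hij, hδ k]) (by linarith) x hx,
    fun L _ _ _ i => symb_mem_unramified (algebraMap (CRing lam a) L) hlam ha i,
    Pool.Agent.TH826.UM.exists_tori_scaled (by omega) hδ hsep hl⟩

end Pool.Agent.Results.MP_a09a03_nt.MultidegreeHypersurfaces
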